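import Mathlib
import Pool.Agent.Helper5.FS.Defs
import Pool.Agent.Helper5.FS.AS

/-! Logarithmic averages with the exact normalisation, all positions, all forms. -/

set_option autoImplicit false

open MeasureTheory ProbabilityTheory Filter Topology Finset

namespace Pool.Agent.Helper57.EL

open Pool.Agent.Helper5.FS

/-- the sum of the reciprocals of `1, …, N` -/
noncomputable def har (N : ℕ) : ℝ := ∑ n ∈ Icc 1 N, 1 / (n : ℝ)

theorem har_eq (N : ℕ) : har N = ((harmonic N : ℚ) : ℝ) := by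
  unfold har
  rw [harmonic_eq_sum_Icc]
  push_cast
  exact Finset.sum_congr rfl fun n _ => one_div _

theorem log_le_har (N : ℕ) (hN : 1 ≤ N) : Real.log N ≤ har N := by
  rw [har_eq]
  refine le_trans ?_ (log_add_one_le_harmonic N)
  exact Real.log_le_log (by exact_mod_cast hN) (by push_cast; linarith)

theorem har_le (N : ℕ) : har N ≤ 1 + Real.log N := by
  rw [har_eq]
  exact harmonic_le_one_add_log N

/-- from the normalisation by `log N` to the normalisation by `∑ 1 / n` -/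
theorem tendsto_har {F : ℕ → ℂ} (h : Tendsto (fun N : ℕ => F N / ((Real.log N : ℝ) : ℂ)) atTop (𝓝 0)) :
    Tendsto (fun N : ℕ => F N / ((har N : ℝ) : ℂ)) atTop (𝓝 0) := by
  rw [tendsto_zero_iff_norm_tendsto_zero] at h ⊢
  refine squeeze_zero' (Eventually.of_forall fun N => norm_nonneg _) ?_ h
  filter_upwards [eventually_ge_atTop 2] with N hN
  have h1 : 0 < Real.log N := Real.log_pos (by exact_mod_cast hN)
  have h2 := log_le_har N (by omega)
  rw [norm_div, norm_div, Complex.norm_real, Complex.norm_real, Real.norm_eq_abs, Real.norm_eq_abs,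
    abs_of_pos h1, abs_of_pos (h1.trans_le h2)]
  exact div_le_div_of_nonneg_left (norm_nonneg _) h1 h2

/-- large logarithmic sums infinitely often: the averages do not tend to zero -/
theorem not_tendsto_har {F : ℕ → ℝ} (h : ∃ᶠ N : ℕ in atTop, (1 / 2 : ℝ) * Real.log N ≤ F N) :
    ¬ Tendsto (fun N : ℕ => ((F N : ℝ) : ℂ) / ((har N : ℝ) : ℂ)) atTop (𝓝 0) := by
  intro ht
  rw [tendsto_zero_iff_norm_tendsto_zero] at ht
  have h1 : ∀ᶠ N : ℕ in atTop, ‖((F N : ℝ) : ℂ) / ((har N : ℝ) : ℂ)‖ < 1 / 4 :=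
    ht.eventually (gt_mem_nhds (by norm_num))
  obtain ⟨N, h2, h3, h4⟩ := (h.and_eventually (h1.and (eventually_ge_atTop 3))).exists
  have h5 : 1 < Real.log N := by
    have h6 : Real.exp 1 < N := lt_of_lt_of_le Real.exp_one_lt_d9 (by
      have : (3 : ℝ) ≤ N := by exact_mod_cast h4
      linarith)
    have h7 := Real.log_lt_log (Real.exp_pos 1) h6
    rwa [Real.log_exp] at h7
  have h8 := har_le N
  have h9 := log_le_har N (by omega)
  have h10 : 0 < har N := by linarith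
  rw [norm_div, Complex.norm_real, Complex.norm_real, Real.norm_eq_abs, Real.norm_eq_abs,
    abs_of_pos h10, div_lt_iff₀ h10] at h3
  have h11 := le_abs_self (F N)
  linarith

/-- positions `S` of the random factor, all forms, arbitrary other factors: logarithmic averages, and
ordinary averages at almost all scales -/
theorem elliott_two (hA : S_ASTWO) (l : ℝ) (hl0 : 0 < l) (hl : l < Real.log 2) {Ω : Type}
    [m : MeasurableSpace Ω] (P : Measure Ω) (X : ℕ → Ω → Bool) (hX : FairBits P X) (k : ℕ)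
    (g : Fin k → ℕ → ℂ) (w : ℕ → ℂ) (hg : ∀ i n, ‖g i n‖ ≤ 1) (hw : ∀ n, ‖w n‖ ≤ 1) :
    ∀ᵐ ω ∂P, ∀ (S : Finset (Fin k)) (a b : Fin k → ℕ), S.Nonempty → (∀ i ∈ S, 1 ≤ a i) →
      (∀ i ∈ S, ∀ j ∈ S, i ≠ j → a i * b j ≠ a j * b i) →
      Tendsto (fun N : ℕ => (∑ x ∈ Icc 1 N, (‖∑ n ∈ Icc 1 x, w n * ((∏ i, g i (a i * n + b i)) *
        ∏ i ∈ S, ((tw (lev2 l) (fun j => X j ω) (a i * n + b i) : ℝ) : ℂ))‖ / x) ^ 2 / x) /
          Real.log N) atTop (𝓝 0) ∧
      Tendsto (fun N : ℕ => (∑ n ∈ Icc 1 N, w n * ((∏ i, g i (a i * n + b i)) *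
        ∏ i ∈ S, ((tw (lev2 l) (fun j => X j ω) (a i * n + b i) : ℝ) : ℂ)) / n) /
          ((Real.log N : ℝ) : ℂ)) atTop (𝓝 0) := by
  rw [ae_all_iff]
  intro S
  rw [ae_all_iff]
  intro a
  rw [ae_all_iff]
  intro b
  by_cases hS : S.Nonempty
  swap
  · exact Eventually.of_forall fun ω h => absurd h hS
  by_cases ha : ∀ i ∈ S, 1 ≤ a i
  swap
  · exact Eventually.of_forall fun ω _ h => absurd h ha
  by_cases hab : ∀ i ∈ S, ∀ j ∈ S, i ≠ j → a i * b j ≠ a j * b i
  swap
  · exact Eventually.of_forall fun ω _ _ h => absurd h hab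
  have hv : ∀ n, ‖w n * ∏ i, g i (a i * n + b i)‖ ≤ 1 := by
    intro n
    rw [norm_mul, norm_prod]
    exact mul_le_one₀ (hw n) (prod_nonneg fun _ _ => norm_nonneg _)
      (Finset.prod_le_one (fun i _ => norm_nonneg _) fun i _ => hg _ _)
  have hmem : ∀ j : Fin S.card, S.orderEmbOfFin rfl j ∈ S := fun j => S.orderEmbOfFin_mem rfl j
  have h1 := hA l hl0 hl S.card (fun j => a (S.orderEmbOfFin rfl j)) (fun j => b (S.orderEmbOfFin rfl j))
    hS.card_pos ⟨fun j => ha _ (hmem j), fun i j hij => hab _ (hmem i) _ (hmem j)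
      fun h => hij ((S.orderEmbOfFin rfl).injective h)⟩ Ω m P X hX
    (fun n => w n * ∏ i, g i (a i * n + b i)) hv
  have h3 : ∀ f : Fin k → ℂ, ∏ j, f (S.orderEmbOfFin rfl j) = ∏ i ∈ S, f i := by
    intro f
    have h4 : Finset.univ.image (S.orderEmbOfFin (rfl : S.card = S.card)) = S :=
      S.image_orderEmbOfFin_univ rfl
    conv_rhs => rw [← h4]
    rw [Finset.prod_image]
    intro x _ y _ h
    exact (S.orderEmbOfFin rfl).injective h
  have h5 : ∀ (ω : Ω) (n : ℕ), w n * ((∏ i, g i (a i * n + b i)) *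
      ∏ i ∈ S, ((tw (lev2 l) (fun j => X j ω) (a i * n + b i) : ℝ) : ℂ)) =
      (w n * ∏ i, g i (a i * n + b i)) * ((∏ j, tw (lev2 l) (fun j => X j ω)
        (a (S.orderEmbOfFin rfl j) * n + b (S.orderEmbOfFin rfl j)) : ℝ) : ℂ) := by
    intro ω n
    rw [mul_assoc, ← h3 fun i => ((tw (lev2 l) (fun j => X j ω) (a i * n + b i) : ℝ) : ℂ)]
    push_cast
    rfl
  filter_upwards [h1] with ω h2 _ _ _
  simp only [h5]
  exact h2

end Pool.Agent.Helper57.EL
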